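import Pool.Agent.H42.BG4

open Cardinal Pool.Agent.H42.BG

/-- Under CH some set of reals has `S1` for Borel omega-covers while its square fails `S1` for
Borel covers. -/
theorem Pool.Agent.Results.MP_b4c787_gt.UnderCH.result (hCH : (𝔠 : Cardinal.{0}) = ℵ₁) :
    ∃ X : Set ℝ,
      (∀ 𝒰 : ℕ → ℕ → Set ℝ,
        (∀ m, (∀ n, MeasurableSet (𝒰 m n)) ∧ (∀ n, ¬ X ⊆ 𝒰 m n) ∧
          ∀ F : Finset ℝ, (↑F : Set ℝ) ⊆ X → ∃ n, (↑F : Set ℝ) ⊆ 𝒰 m n) →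
        ∃ f : ℕ → ℕ, (∀ n, ¬ X ⊆ 𝒰 n (f n)) ∧
          ∀ F : Finset ℝ, (↑F : Set ℝ) ⊆ X → ∃ n, (↑F : Set ℝ) ⊆ 𝒰 n (f n)) ∧
      ∃ 𝒱 : ℕ → ℕ → Set (Fin 2 → ℝ),
        (∀ m, (∀ n, MeasurableSet (𝒱 m n)) ∧
          (∀ n, ¬ Set.pi Set.univ (fun _ => X) ⊆ 𝒱 m n) ∧
          Set.pi Set.univ (fun _ => X) ⊆ ⋃ n, 𝒱 m n) ∧
        ∀ f : ℕ → ℕ, ¬ Set.pi Set.univ (fun _ => X) ⊆ ⋃ m, 𝒱 m (f m) := by
  obtain ⟨X, Y, -, h2, -, -, V, h3, h4, h5⟩ := real_core hCH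
  refine ⟨X, fun U hU => ?_, V, fun m => ⟨h3 m, fun n h => ?_, by simp [h4 m]⟩, fun f h => ?_⟩
  · obtain ⟨f, hf⟩ := h2 U (fun n => (hU n).1) fun n F hF hfin => by
      simpa using (hU n).2.2 hfin.toFinset (by simpa using hF)
    refine ⟨f, fun n => (hU n).2.1 _, fun F hF => ?_⟩
    exact ((Filter.eventually_all_finset F).2 fun x hx => hf x (hF hx)).exists
  · obtain ⟨z, a1, a2⟩ := h5 fun _ => n
    exact a2 m (h fun i _ => a1 i)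
  · obtain ⟨z, a1, a2⟩ := h5 f
    obtain ⟨m, hm⟩ := Set.mem_iUnion.1 (h fun i _ => a1 i)
    exact a2 m hm
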